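import Mathlib

namespace Pool.Agent.Results.MP_c418e9_an.Counter

open Set Filter Topology Real

/-- Euclidean space. -/
abbrev E (N : ℕ) := EuclideanSpace ℝ (Fin N)

/-- The Laplacian: the sum of the pure second derivatives along the coordinate axes. -/
noncomputable def lap {N : ℕ} (f : E N → ℝ) (x : E N) : ℝ :=
  ∑ i : Fin N, iteratedDeriv 2 (fun t : ℝ => f (x + t • EuclideanSpace.single i 1)) 0

/-- `(l, f)` is a Dirichlet eigenpair of `-Δ` in `Ω`. -/
structure IsEigenpair {N : ℕ} (Ω : Set (E N)) (l : ℝ) (f : E N → ℝ) : Prop where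
  cont : ContinuousOn f (closure Ω)
  smooth : ContDiffOn ℝ 2 f Ω
  eqn : ∀ x ∈ Ω, -lap f x = l * f x
  bdry : ∀ x ∈ frontier Ω, f x = 0
  ne : ∃ x ∈ Ω, f x ≠ 0

/-- `f` is a positive first Dirichlet eigenfunction: a positive eigenfunction whose eigenvalue is
the least Dirichlet eigenvalue. -/
def IsFirstPos {N : ℕ} (Ω : Set (E N)) (f : E N → ℝ) : Prop :=
  ∃ l, IsEigenpair Ω l f ∧ (∀ x ∈ Ω, 0 < f x) ∧ ∀ m g, IsEigenpair Ω m g → l ≤ m

/-- The right isosceles triangle. -/
def T : Set (E 2) := {p | 0 < p 1 ∧ p 1 < p 0 ∧ p 0 < π}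

/-- Eigenfunction of a dilated triangle. -/
noncomputable def F (K k e : ℝ) (p : E 2) : ℝ :=
  K * (sin (k * (p 0 + 2 * e)) * sin (2 * (k * (p 1 + e))) -
    sin (2 * (k * (p 0 + 2 * e))) * sin (k * (p 1 + e)))

theorem d2 (A B a b : ℝ) :
    iteratedDeriv 2 (fun t : ℝ => A * sin (a * t + b) + B * sin (2 * (a * t + b))) 0 =
      -a ^ 2 * (A * sin b + 4 * B * sin (2 * b)) := by
  have h1 : deriv (fun t : ℝ => A * sin (a * t + b) + B * sin (2 * (a * t + b))) =
      fun t => A * (cos (a * t + b) * a) + B * (cos (2 * (a * t + b)) * (2 * a)) := by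
    funext t
    have h : HasDerivAt (fun t : ℝ => a * t + b) a t := by
      simpa using ((hasDerivAt_id t).const_mul a).add_const b
    exact ((h.sin.const_mul A).add ((h.const_mul 2).sin.const_mul B)).deriv
  have h : HasDerivAt (fun t : ℝ => a * t + b) a 0 := by
    simpa using ((hasDerivAt_id (0 : ℝ)).const_mul a).add_const b
  rw [iteratedDeriv_succ, iteratedDeriv_one, h1]
  have := (((h.cos.mul_const a).const_mul A).add
    (((h.const_mul 2).cos.mul_const (2 * a)).const_mul B)).deriv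
  refine this.trans ?_
  simp only [mul_zero, zero_add]
  ring

theorem lap_F (K k e : ℝ) (p : E 2) : -lap (F K k e) p = 5 * k ^ 2 * F K k e p := by
  have h0 : (fun t : ℝ => F K k e (p + t • EuclideanSpace.single 0 1)) = fun t =>
      (K * sin (2 * (k * (p 1 + e)))) * sin (k * t + k * (p 0 + 2 * e)) +
      (-K * sin (k * (p 1 + e))) * sin (2 * (k * t + k * (p 0 + 2 * e))) := by
    funext t
    simp only [F, PiLp.add_apply, PiLp.smul_apply, PiLp.single_apply]
    simp
    ring_nf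
  have h1 : (fun t : ℝ => F K k e (p + t • EuclideanSpace.single 1 1)) = fun t =>
      (-K * sin (2 * (k * (p 0 + 2 * e)))) * sin (k * t + k * (p 1 + e)) +
      (K * sin (k * (p 0 + 2 * e))) * sin (2 * (k * t + k * (p 1 + e))) := by
    funext t
    simp only [F, PiLp.add_apply, PiLp.smul_apply, PiLp.single_apply]
    simp
    ring_nf
  rw [lap, Fin.sum_univ_two, h0, h1, d2, d2, F]
  ring

theorem F_eq (K k e : ℝ) (p : E 2) : F K k e p = 2 * K * (sin (k * (p 0 + 2 * e)) *
    sin (k * (p 1 + e)) * (cos (k * (p 1 + e)) - cos (k * (p 0 + 2 * e)))) := by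
  rw [F, sin_two_mul, sin_two_mul]
  ring

theorem pos_aux {u v : ℝ} (h0 : 0 < v) (h1 : v < u) (h2 : u < π) :
    0 < sin u * sin v * (cos v - cos u) :=
  mul_pos (mul_pos (sin_pos_of_pos_of_lt_pi (by linarith) h2)
    (sin_pos_of_pos_of_lt_pi h0 (by linarith)))
    (sub_pos.2 (cos_lt_cos_of_nonneg_of_le_pi h0.le h2.le h1))

theorem F_smooth (K k e : ℝ) : ContDiff ℝ 2 (F K k e) := by
  unfold F
  fun_prop

theorem T_open : IsOpen T :=
  (isOpen_lt continuous_const (by fun_prop : Continuous fun p : E 2 => p 1)).inter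
    ((isOpen_lt (by fun_prop : Continuous fun p : E 2 => p 1)
      (by fun_prop : Continuous fun p : E 2 => p 0)).inter
    (isOpen_lt (by fun_prop : Continuous fun p : E 2 => p 0) continuous_const))

theorem T_closure : closure T ⊆ {p | 0 ≤ p 1 ∧ p 1 ≤ p 0 ∧ p 0 ≤ π} :=
  closure_minimal (fun p hp => ⟨hp.1.le, hp.2.1.le, hp.2.2.le⟩)
    ((isClosed_le continuous_const (by fun_prop : Continuous fun p : E 2 => p 1)).inter
    ((isClosed_le (by fun_prop : Continuous fun p : E 2 => p 1)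
      (by fun_prop : Continuous fun p : E 2 => p 0)).inter
    (isClosed_le (by fun_prop : Continuous fun p : E 2 => p 0) continuous_const)))

theorem T_convex : Convex ℝ T := by
  intro p hp q hq a b ha hb hab
  obtain ⟨h1, h2, h3⟩ := hp
  obtain ⟨h4, h5, h6⟩ := hq
  simp only [T, mem_setOf_eq, PiLp.add_apply, PiLp.smul_apply, smul_eq_mul]
  obtain rfl : b = 1 - a := by linarith
  rcases ha.eq_or_lt with rfl | ha
  · simpa using ⟨h4, h5, h6⟩
  · refine ⟨?_, ?_, ?_⟩ <;> nlinarith

theorem T_bdd : Bornology.IsBounded T := by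
  refine (Metric.isBounded_closedBall (x := (0 : E 2)) (r := 2 * π)).subset fun p hp => ?_
  obtain ⟨h1, h2, h3⟩ := hp
  rw [mem_closedBall_zero_iff, EuclideanSpace.norm_eq, Fin.sum_univ_two, sqrt_le_iff]
  simp only [norm_eq_abs, sq_abs]
  constructor <;> nlinarith [pi_pos]

theorem d2_nonneg {g : ℝ → ℝ} (h : IsLocalMin g 0) (hc : ContinuousAt g 0) :
    0 ≤ iteratedDeriv 2 g 0 := by
  by_contra hn
  rw [iteratedDeriv_succ, iteratedDeriv_one, not_le] at hn
  have h2 := isLocalMax_of_deriv_deriv_neg hn h.deriv_eq_zero hc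
  have h3 : g =ᶠ[𝓝 0] fun _ => g 0 := by
    filter_upwards [h, h2] with x hx1 hx2 using le_antisymm hx2 hx1
  rw [h3.deriv.deriv_eq] at hn
  simp at hn

theorem line_smooth {f : E 2 → ℝ} {x : E 2} (hf : ContDiffAt ℝ 2 f x) (v : E 2) :
    ContDiffAt ℝ 2 (fun t : ℝ => f (x + t • v)) 0 := by
  have h : ContDiffAt ℝ 2 (fun t : ℝ => x + t • v) 0 := by fun_prop
  exact ContDiffAt.comp (g := f) 0 (by simpa using hf) h

theorem lower_pos {m : ℝ} {g : E 2 → ℝ} (hc : ContinuousOn g (closure T))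
    (hs : ContDiffOn ℝ 2 g T) (he : ∀ x ∈ T, -lap g x = m * g x)
    (hb : ∀ x ∈ frontier T, g x = 0) {x₁ : E 2} (hx₁ : x₁ ∈ T) (hg : 0 < g x₁) : 5 ≤ m := by
  have key : ∀ k : ℝ, 0 < k → k < 1 → 5 * k ^ 2 ≤ m := by
    intro k hk0 hk1
    set e := π * (1 / k - 1) / 3 with he_def
    have he0 : 0 < e := by
      have : 1 < 1 / k := by rw [lt_div_iff₀ hk0]; linarith
      have := pi_pos
      rw [he_def]
      positivity
    have hke : k * (π + 3 * e) = π := by
      rw [he_def]
      field_simp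
      ring
    have hF : ∀ p ∈ closure T, 0 < F 1 k e p := fun p hp => by
      obtain ⟨h1, h2, h3⟩ := T_closure hp
      rw [F_eq]
      refine mul_pos (by norm_num) (pos_aux (by positivity) ?_ ?_) <;> nlinarith
    obtain ⟨x, hx, hmax⟩ := (T_bdd.isCompact_closure).exists_isMaxOn ⟨x₁, subset_closure hx₁⟩
      (hc.div (F_smooth 1 k e).continuous.continuousOn fun p hp => (hF p hp).ne')
    set c := g x / F 1 k e x with hc_def
    have hc0 : 0 < c := lt_of_lt_of_le (div_pos hg (hF _ (subset_closure hx₁)))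
      (hmax (subset_closure hx₁))
    have hgx : g x = c * F 1 k e x := by
      rw [hc_def, div_mul_cancel₀ _ (hF x hx).ne']
    have hxT : x ∈ T := by
      by_contra h
      have := hb x ⟨hx, by rwa [T_open.interior_eq]⟩
      rw [this] at hgx
      exact (mul_pos hc0 (hF x hx)).ne' hgx.symm
    have hsx : ContDiffAt ℝ 2 g x := hs.contDiffAt (T_open.mem_nhds hxT)
    have h1 : ∀ v : E 2, iteratedDeriv 2 (fun t : ℝ => g (x + t • v)) 0 ≤
        c * iteratedDeriv 2 (fun t : ℝ => F 1 k e (x + t • v)) 0 := fun v => by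
      have hA := line_smooth hsx v
      have hB := line_smooth (F_smooth 1 k e).contDiffAt (x := x) v
      have hmin : IsLocalMin (fun t : ℝ => c * F 1 k e (x + t • v) - g (x + t • v)) 0 := by
        have ht : Tendsto (fun t : ℝ => x + t • v) (𝓝 0) (𝓝 x) := by
          have : Continuous fun t : ℝ => x + t • v := by fun_prop
          simpa using this.tendsto 0
        filter_upwards [ht.eventually (T_open.mem_nhds hxT)] with t ht
        have h2 : g (x + t • v) / F 1 k e (x + t • v) ≤ c := hmax (subset_closure ht)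
        rw [div_le_iff₀ (hF _ (subset_closure ht))] at h2
        simp only [zero_smul, add_zero]
        linarith
      have := d2_nonneg hmin ((contDiffAt_const.mul hB).sub hA).continuousAt
      rw [iteratedDeriv_fun_sub (contDiffAt_const.mul hB) hA, iteratedDeriv_const_mul c hB] at this
      linarith
    have h2 : lap g x ≤ c * lap (F 1 k e) x := by
      rw [lap, lap, Finset.mul_sum]
      exact Finset.sum_le_sum fun i _ => h1 _
    have h3 := he x hxT
    have h4 := lap_F 1 k e x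
    have h5 := mul_pos hc0 (hF x hx)
    have h6 : 5 * k ^ 2 * (c * F 1 k e x) ≤ m * (c * F 1 k e x) := by
      rw [hgx] at h3
      have : lap (F 1 k e) x = -(5 * k ^ 2 * F 1 k e x) := by linarith
      rw [this] at h2
      linarith
    exact le_of_mul_le_mul_right h6 h5
  have ht : Tendsto (fun k : ℝ => 5 * k ^ 2) (𝓝[<] 1) (𝓝 (5 * 1 ^ 2)) :=
    tendsto_nhdsWithin_of_tendsto_nhds (Continuous.tendsto (by fun_prop) 1)
  have := le_of_tendsto ht (by
    filter_upwards [Ioo_mem_nhdsLT (show (0 : ℝ) < 1 by norm_num)] with k hk using key k hk.1 hk.2)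
  linarith

theorem lower {m : ℝ} {g : E 2 → ℝ} (h : IsEigenpair T m g) : 5 ≤ m := by
  obtain ⟨x, hx, hne⟩ := h.ne
  rcases hne.lt_or_gt with hlt | hgt
  · refine lower_pos (g := fun p => -g p) h.cont.neg h.smooth.neg (fun y hy => ?_)
      (fun y hy => by simp [h.bdry y hy]) hx (by linarith)
    have := h.eqn y hy
    have e : lap (fun p => -g p) y = -lap g y := by
      simp only [lap, iteratedDeriv_fun_neg, Finset.sum_neg_distrib]
    rw [e]
    linarith
  · exact lower_pos h.cont h.smooth h.eqn h.bdry hx hgt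

/-- `1/√3`. -/
noncomputable def a : ℝ := √(1 / 3)

theorem a_sq : a ^ 2 = 1 / 3 := sq_sqrt (by norm_num)

theorem a_pos : 0 < a := sqrt_pos.2 (by norm_num)

/-- The normalised first eigenfunction. -/
noncomputable def phi : E 2 → ℝ := F (9 / 8 * a) 1 0

theorem phi_eq (p : E 2) :
    phi p = 9 / 4 * a * (sin (p 0) * sin (p 1) * (cos (p 1) - cos (p 0))) := by
  rw [phi, F_eq]
  simp only [mul_zero, add_zero, one_mul]
  ring

theorem phi_pos {p : E 2} (hp : p ∈ T) : 0 < phi p := by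
  rw [phi_eq]
  exact mul_pos (by linarith [a_pos]) (pos_aux hp.1 hp.2.1 hp.2.2)

theorem phi_le {p : E 2} (hp : p ∈ T) : phi p ≤ 1 := by
  rw [phi_eq]
  have h1 := sin_sq_add_cos_sq (p 0)
  have h2 := sin_sq_add_cos_sq (p 1)
  have h3 : 0 < cos (p 1) - cos (p 0) :=
    sub_pos.2 (cos_lt_cos_of_nonneg_of_le_pi hp.1.le hp.2.2.le hp.2.1)
  set s := (cos (p 1) - cos (p 0)) / 2 with hs
  have h4 : sin (p 0) * sin (p 1) ≤ 1 - s ^ 2 := by
    rw [hs]
    nlinarith [sq_nonneg (sin (p 0) - sin (p 1)), sq_nonneg (cos (p 1) + cos (p 0))]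
  have h5 : cos (p 1) - cos (p 0) = 2 * s := by rw [hs]; ring
  have h6 : 0 < s := by linarith
  have h7 : sin (p 0) * sin (p 1) * (2 * s) ≤ (1 - s ^ 2) * (2 * s) :=
    mul_le_mul_of_nonneg_right h4 (by linarith)
  have h8 : 9 / 4 * a * ((1 - s ^ 2) * (2 * s)) ≤ 1 := by
    have h9 : 0 ≤ a * ((s - a) ^ 2 * (s + 2 * a)) := by
      have := a_pos
      positivity
    have h10 : a * ((s - a) ^ 2 * (s + 2 * a)) =
        a * s ^ 3 - 3 * a ^ 2 * (a * s) + 2 * (a ^ 2) ^ 2 := by ring
    rw [h10, a_sq] at h9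
    nlinarith
  rw [h5]
  exact le_trans (mul_le_mul_of_nonneg_left h7 (by linarith [a_pos])) h8

/-- Points of the symmetry axis. -/
noncomputable def pt (y : ℝ) : E 2 := !₂[π - y, y]

theorem pt_mem {y : ℝ} (h0 : 0 < y) (h1 : y < π / 2) : pt y ∈ T := by
  refine ⟨?_, ?_, ?_⟩ <;> simp [pt] <;> linarith

theorem phi_pt (y : ℝ) : phi (pt y) = 9 / 2 * a * (sin y ^ 2 * cos y) := by
  rw [phi_eq]
  simp [pt]
  ring

theorem phi_eig : IsEigenpair T 5 phi where
  cont := (F_smooth _ _ _).continuous.continuousOn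
  smooth := (F_smooth _ _ _).contDiffOn
  eqn := fun x _ => by rw [phi, lap_F]; ring
  bdry := fun x hx => by
    obtain ⟨h1, h2, h3⟩ := T_closure hx.1
    have h4 : x ∉ T := by simpa [T_open.interior_eq] using hx.2
    rw [phi_eq]
    rcases h1.eq_or_lt with h1 | h1
    · simp [← h1]
    rcases h2.eq_or_lt with h2 | h2
    · simp [h2]
    rcases h3.eq_or_lt with h3 | h3
    · simp [h3]
    exact absurd ⟨h1, h2, h3⟩ h4
  ne := ⟨pt 1, pt_mem one_pos (by linarith [pi_gt_three]),
    (phi_pos (pt_mem one_pos (by linarith [pi_gt_three]))).ne'⟩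

theorem not_convex : ¬ ConvexOn ℝ T fun x => √(-log (phi x)) := by
  intro h
  have ha1 : a < 1 := by nlinarith [a_sq, a_pos]
  set α := arccos a
  set δ := arcsin (48 / 577)
  have hca : cos α = a := cos_arccos (by linarith [a_pos]) ha1.le
  have hα : α < π / 2 := arccos_lt_pi_div_two.2 a_pos
  have hα0 : 0 < α := arccos_pos.2 ha1
  have hsa : 0 < sin α := sin_pos_of_pos_of_lt_pi hα0 (by linarith [pi_pos])
  have hb : sin α ^ 2 = 2 / 3 := by
    have := sin_sq_add_cos_sq α
    rw [hca, a_sq] at this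
    linarith
  have hsd : sin δ = 48 / 577 := sin_arcsin (by norm_num) (by norm_num)
  have hcd : cos δ = 575 / 577 := by
    rw [cos_arcsin, show (1 : ℝ) - (48 / 577) ^ 2 = (575 / 577) ^ 2 by norm_num,
      sqrt_sq (by norm_num)]
  have hδ0 : 0 < δ := arcsin_pos.2 (by norm_num)
  have hδ : 2 * δ < α := by
    by_contra hn
    have := cos_le_cos_of_nonneg_of_le_pi hα0.le (by linarith [arcsin_le_pi_div_two (48 / 577)])
      (not_lt.1 hn)
    rw [cos_two_mul, hcd, hca] at this
    nlinarith [a_sq, a_pos]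
  have m0 := pt_mem hα0 hα
  have m1 := pt_mem (y := α - δ) (by linarith) (by linarith)
  have m2 := pt_mem (y := α - 2 * δ) (by linarith) (by linarith)
  have hmid : (1 / 2 : ℝ) • pt α + (1 / 2 : ℝ) • pt (α - 2 * δ) = pt (α - δ) := by
    ext i
    fin_cases i <;> simp [pt] <;> ring
  have h1 := h.2 m0 m2 (show (0 : ℝ) ≤ 1 / 2 by norm_num) (show (0 : ℝ) ≤ 1 / 2 by norm_num)
    (by norm_num)
  have e0 : phi (pt α) = 1 := by
    rw [phi_pt, hb, hca]
    nlinarith [a_sq]
  simp only [hmid, e0, log_one, neg_zero, sqrt_zero, smul_eq_mul, mul_zero, zero_add] at h1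
  set r := a * sin α with hr
  have hr2 : r ^ 2 = 2 / 9 := by rw [hr, mul_pow, a_sq, hb]; norm_num
  have hr0 : 0 < r := mul_pos a_pos hsa
  have hr3 : 0.4714045 < r := by nlinarith
  have hr4 : r < 0.4714046 := by nlinarith
  have key : ∀ y, phi (pt (α - y)) = 9 / 2 * (((2 * cos y ^ 2 + sin y ^ 2) / 3 -
      2 * r * cos y * sin y) * (cos y / 3 + r * sin y)) := fun y => by
    rw [phi_pt, sin_sub, cos_sub, hca]
    have e1 : (sin α * cos y - a * sin y) ^ 2 =
        sin α ^ 2 * cos y ^ 2 - 2 * r * cos y * sin y + a ^ 2 * sin y ^ 2 := by rw [hr]; ring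
    have e2 : a * (a * cos y + sin α * sin y) = a ^ 2 * cos y + r * sin y := by rw [hr]; ring
    calc _ = 9 / 2 * ((sin α * cos y - a * sin y) ^ 2 * (a * (a * cos y + sin α * sin y))) := by
          ring
      _ = _ := by rw [e1, e2, hb, a_sq]; ring
  have p1 : phi (pt (α - δ)) ≤ 0.97975 := by
    rw [key, hsd, hcd]
    nlinarith
  have p2 : 0.9215 ≤ phi (pt (α - 2 * δ)) := by
    rw [key, sin_two_mul, cos_two_mul, hsd, hcd]
    nlinarith
  have q1 := phi_pos m1
  have q2 := phi_pos m2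
  have l1 : 0 ≤ -log (phi (pt (α - δ))) := by linarith [log_nonpos q1.le (phi_le m1)]
  have l2 : 0 ≤ -log (phi (pt (α - 2 * δ))) := by linarith [log_nonpos q2.le (phi_le m2)]
  have h2 := pow_le_pow_left₀ (sqrt_nonneg _) h1 2
  rw [mul_pow, sq_sqrt l1, sq_sqrt l2] at h2
  have h3 : log (phi (pt (α - 2 * δ))) ≤ log (phi (pt (α - δ)) ^ 4) := by
    rw [log_pow]
    push_cast
    linarith
  rw [log_le_log_iff q2 (by positivity)] at h3
  have h4 := pow_le_pow_left₀ q1.le p1 4
  norm_num at h4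
  linarith

/-- Q1 is false: on a right isosceles triangle the positive first Dirichlet eigenfunction with
maximum one is not `1/2`-log-concave. -/
theorem result : ∃ (N : ℕ) (Ω : Set (E N)) (f : E N → ℝ), Ω.Nonempty ∧ IsOpen Ω ∧ Convex ℝ Ω ∧
    Bornology.IsBounded Ω ∧ IsFirstPos Ω f ∧ (∀ x ∈ Ω, f x ≤ 1) ∧
    ¬ ConvexOn ℝ Ω fun x => √(-log (f x)) :=
  ⟨2, T, phi, ⟨pt 1, pt_mem one_pos (by linarith [pi_gt_three])⟩, T_open, T_convex, T_bdd,
    ⟨5, phi_eig, fun _ => phi_pos, fun _ _ => lower⟩, fun _ => phi_le, not_convex⟩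

end Pool.Agent.Results.MP_c418e9_an.Counter
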